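import Pool.Agent.Helper45.LinK.Leaf

/-!
Compact Kähler manifolds with a Galois covering space `D × ℂᵏ`, `D` a bounded domain of `ℂᵇ`, have
semiample canonical bundle; if `k ≥ 2` the leaves `{z} × ℂᵏ` are assumed to be flat, or uniformly
quasiconformal to the flat space `ℂᵏ`.
-/

open scoped Manifold ContDiff
open Pool.Agent.Helper16.Abund Pool.Agent.Helper92.Orb Pool.Agent.Helper95.Lin
open Pool.Agent.Helper45.LinK

namespace Pool.Agent.Helper15.Kept.FlatLeafCoverings

theorem result {b k : ℕ} {D : Set (Fin b → ℂ)} (hD : IsOpen D) (hDc : IsConnected D)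
    (hDb : Bornology.IsBounded D) {X : Type*} [TopologicalSpace X] [T2Space X] [CompactSpace X]
    [ChartedSpace (Fin (b + k) → ℂ) X] [IsManifold 𝓘(ℂ, Fin (b + k) → ℂ) ω X]
    {g : X → Matrix (Fin (b + k)) (Fin (b + k)) ℂ} (hg : KahlerMetric (b + k) X g)
    {P : TorTube hD k → X} (hP : HolCovering (b + k) P) (hG : GaloisK P) (hk : LeafCond g P) :
    CanSemiample (b + k) X ∧
      ∀ z ∈ D, IsCompact (P '' {y : TorTube hD k | base (tvK y) = z}) :=
  galois_covering' hD hDc hDb hg hP hG hk

end Pool.Agent.Helper15.Kept.FlatLeafCoverings
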