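import Pool.Agent.Helper45.LinK.Assembly

/-!
Compact Kähler quotients `(D × ℂᵏ)/Γ` with quotient singularities, `D` a bounded domain of `ℂᵇ`; if
`k ≥ 2` the leaves `{z} × ℂᵏ` are assumed to be flat, or uniformly quasiconformal to the flat space:
after a biholomorphic map of `D × ℂᵏ` over `D` the group contains a lattice of translations of the
leaves, and the canonical divisor is semiample.
-/

open scoped Manifold ContDiff
open Pool.Agent.Helper16.Abund Pool.Agent.Helper92.Orb Pool.Agent.Helper95.Lin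
open Pool.Agent.Helper45.LinK

namespace Pool.Agent.Helper15.Kept.FlatLeafQuotients

theorem result {b k : ℕ} {D : Set (Fin b → ℂ)} (hD : IsOpen D) (hDc : IsConnected D)
    (hDb : Bornology.IsBounded D) (Γ : Type*) [Group Γ] [MulAction Γ (TorTube hD k)]
    (hΓ : OrbAction (b + k) Γ (TorTube hD k))
    (hpr : ∀ K : Set (TorTube hD k), IsCompact K → {γ : Γ | ∃ y ∈ K, γ • y ∈ K}.Finite)
    (hK : ∃ h, KahlerMetric (b + k) (TorTube hD k) h ∧
      (∀ γ : Γ, InvMetric (b + k) h (fun y : TorTube hD k => γ • y)) ∧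
      (2 ≤ k → QCFib hD h ∨ FlatFib hD h)) :
    (∃ e : TorTube hD k ≃ₜ TorTube hD k,
      MDifferentiable 𝓘(ℂ, Fin (b + k) → ℂ) 𝓘(ℂ, Fin (b + k) → ℂ) e ∧
      MDifferentiable 𝓘(ℂ, Fin (b + k) → ℂ) 𝓘(ℂ, Fin (b + k) → ℂ) e.symm ∧
      (∀ y, base (tvK (e y)) = base (tvK y)) ∧
      ∃ Λ : (Fin b → ℂ) → Fin (2 * k) → Fin k → ℂ, LatticeFamily D Λ ∧
        ∀ m : Fin (2 * k) → ℤ, ∃ γ : Γ, ∀ y, e (γ • y) = latShift hD Λ m (e y)) ∧
    OrbSemiample (b + k) Γ (TorTube hD k) :=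
  orbifold_quotient hD hDc hDb Γ hΓ hpr hK

end Pool.Agent.Helper15.Kept.FlatLeafQuotients
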